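import Pool.Agent.V11113.MP.FField2

set_option autoImplicit false

/-!
# Record prime gaps around all coordinates of the powers of an element of a finite field

Let `R(p) = log p (log₂ p)² log₄ p / (log₃ p)²`, the order of the largest prime gaps known (starting
library). Let `K` be a finite field with `p ^ d` elements, `l_1, …, l_r` linearly independent linear
functionals on `K` over the prime field (for `r = d`: the coordinates in a basis), `g, a ≠ 0` in `K`.
For every `ε > 0` and all large `p`, in every range of exponents and in every box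
`[A_1, A_1 + H_1) × … × [A_r, A_r + H_r)` of volume `V` with `p ^ (d / 2 + r + ε) ≤ N V` and
`p ^ (d / 2 + r + ε) ≤ ord(g) V` there are at least `N V / p ^ (r + ε)` exponents `n` in `(L, L + N]`
such that `n` and all the coordinates `l_j(a g ^ n)` (least nonnegative residues) lie in prime gaps of
order `R(p)` on both sides, and these residues lie in the box.

In particular (`l_j = l(g ^ (j - 1) ·)`, `K` generated by `g`, `r ≤ d`) this holds for `r` consecutive
terms of a linear recurring sequence modulo `p` of order `d` with irreducible characteristic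
polynomial.

Proof. Covering criterion with several integers (starting library `Pool.Agent.Y961.JR.critJ`, in the
form of `Pool.Agent.V1179.MH.crit_gen'`: integers and residues modulo `p` in boxes), a removal argument
(`Pool.Agent.V11113.MP.ManyK`), and the bound `√|K|`, up to logarithms, for the sums of a nontrivial
additive character of `K` over `a g ^ n` with `n` in an arithmetic progression
(`Pool.Agent.V11113.MP.FField`).
-/

namespace Pool.Agent.Results.MP_b0c12c_nt.CoordinatesOfPowers

/-- `R(x) = log x (log log x)^2 log log log log x / (log log log x)^2`. -/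
noncomputable def R (x : ℝ) : ℝ :=
  Real.log x * (Real.log (Real.log x)) ^ 2 * Real.log (Real.log (Real.log (Real.log x))) /
    (Real.log (Real.log (Real.log x))) ^ 2

open scoped Classical in
theorem result (d r : ℕ) (hr : 1 ≤ r) (ε : ℝ) (h0 : 0 < ε) (h1 : ε ≤ 1) :
    ∃ κ : ℝ, 0 < κ ∧ ∃ P : ℕ, ∀ (p : ℕ) [Fact p.Prime], P ≤ p →
    ∀ (K : Type) [Field K] [Fintype K] [Algebra (ZMod p) K], Fintype.card K = p ^ d →
    ∀ (l : Fin r → K →ₗ[ZMod p] ZMod p), LinearIndependent (ZMod p) l →
    ∀ g a : K, g ≠ 0 → a ≠ 0 → ∀ (L N : ℕ) (A H : Fin r → ℕ), (∀ j, A j + H j ≤ p) →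
    (∀ j, (p : ℝ) ^ ε ≤ H j) →
    (p : ℝ) ^ ((d : ℝ) / 2 + r + ε) ≤ N * ∏ j, (H j : ℝ) →
    (p : ℝ) ^ ((d : ℝ) / 2 + r + ε) ≤ orderOf g * ∏ j, (H j : ℝ) →
    N * (∏ j, (H j : ℝ)) * (p : ℝ) ^ (-((r : ℝ) + ε)) ≤
      ((Finset.Ioc L (L + N)).filter (fun n : ℕ =>
        (∀ q : ℕ, q.Prime → κ * R p < |(q : ℝ) - n|) ∧
        ∀ j, A j ≤ (l j (a * g ^ n)).val ∧ (l j (a * g ^ n)).val < A j + H j ∧
        ∀ q : ℕ, q.Prime → κ * R p < |(q : ℝ) - (l j (a * g ^ n)).val|)).card :=
  Pool.Agent.V11113.MP.ffield d r hr ε h0 h1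

end Pool.Agent.Results.MP_b0c12c_nt.CoordinatesOfPowers
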