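import Pool.Agent.V11113.MP.Curve

set_option autoImplicit false

/-!
# Record prime gaps around an integer and around its discrete logarithm, simultaneously

Let `L(p) = log p (log₂ p)² log₄ p / (log₃ p)²`, the order of the largest prime gaps known (starting
library). For every `ε > 0` there is `κ > 0` such that for all large primes `p`, all nonzero `g`, `a`
modulo `p` and all boxes `(L', L' + N] × (M, M + H]` with `H ≤ p`, `N H ≥ p ^ (3 / 2 + ε)` and
`ord(g) H ≥ p ^ (3 / 2 + ε)`, at least `N H / p ^ (1 + ε)` points `(j, n)` of the exponential curve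
`n ≡ a g ^ j (mod p)` in this box have both coordinates in record prime gaps: neither `j` nor `n` has a
prime within distance `κ L(p)`.

For a primitive root `g` and `a = 1` this says that an integer `n` of a given interval and its discrete
logarithm `j` (in a given interval, as short as `p ^ (3 / 4 + ε)` both, or one of them as short as
`p ^ (1 / 2 + ε)`) lie in record gaps at the same time.

Proof. Both coordinates are handled by the two dimensional covering criterion of the library
(`Pool.Agent.Y961.JR.critJ`), which needs the joint distribution of `j` modulo small numbers and of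
`a g ^ j` modulo `p` in short intervals (and modulo small numbers): completion in the second coordinate
(`Pool.Agent.V11113.MP.Joint`), a removal argument (`Pool.Agent.V11113.MP.ManyJ`) and the bound `√p`,
up to logarithms, for the sums over `g ^ j` with `j` in an arithmetic progression
(`Pool.Agent.V11113.MP.Pow`, `Pool.Agent.V11113.MP.Curve`).
-/

namespace Pool.Agent.Results.MP_b0c12c_nt.DiscreteLogarithms

/-- `R(x) = log x (log log x)^2 log log log log x / (log log log x)^2`. -/
noncomputable def R (x : ℝ) : ℝ :=
  Real.log x * (Real.log (Real.log x)) ^ 2 * Real.log (Real.log (Real.log (Real.log x))) /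
    (Real.log (Real.log (Real.log x))) ^ 2

open scoped Classical in
theorem result (ε : ℝ) (h0 : 0 < ε) (h1 : ε ≤ 1) : ∃ κ : ℝ, 0 < κ ∧ ∃ P : ℕ, ∀ p : ℕ, P ≤ p →
    p.Prime → ∀ g a : ZMod p, g ≠ 0 → a ≠ 0 → ∀ L N M H : ℕ, H ≤ p →
    (p : ℝ) ^ (3 / 2 + ε) ≤ N * H → (p : ℝ) ^ (3 / 2 + ε) ≤ orderOf g * H →
    N * H * (p : ℝ) ^ (-(1 + ε)) ≤ ((Finset.Ioc L (L + N)).filter (fun j : ℕ =>
      (∀ q : ℕ, q.Prime → κ * R p < |(q : ℝ) - j|) ∧
      ∃ n : ℕ, M < n ∧ n ≤ M + H ∧ (n : ZMod p) = a * g ^ j ∧
      ∀ q : ℕ, q.Prime → κ * R p < |(q : ℝ) - n|)).card :=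
  Pool.Agent.V11113.MP.curve ε h0 h1

end Pool.Agent.Results.MP_b0c12c_nt.DiscreteLogarithms
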