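import Pool.Agent.V11113.MP.DotRep

set_option autoImplicit false

/-!
# Every nonzero residue class is a dot product of integers in record prime gaps

Let `R(p) = log p (log₂ p)² log₄ p / (log₃ p)²`, the order of the largest prime gaps known (starting
library). Let `c_1, …, c_d` be nonzero modulo a large prime `p`, let `I_i`, `J_i` be intervals of
lengths `H_i`, `H'_i` between `p ^ ε` and `p`, and let `V` be the product of all the lengths. If
`V ≥ p ^ (d + 1 + ε)` then EVERY nonzero residue class `w` modulo `p` has at least `V / p ^ (1 + ε)`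
representations `w ≡ c_1 x_1 y_1 + ⋯ + c_d x_d y_d` with `x_i ∈ I_i`, `y_i ∈ J_i` such that none of the
`2 d` integers `x_i`, `y_i` has a prime within distance `κ R(p)`.

For `d = 2`: `w ≡ x y + z t` with four integers in record gaps of prescribed intervals, the product of
the four lengths being at least `p ^ (3 + ε)`, e.g. all four of length `p ^ (3 / 4 + ε)`.

Proof. The integers in record gaps have the relative density `p ^ (-δ)` in every interval of length at
least `p ^ ε` (`Pool.Agent.V11113.MP.many`, from the covering sieve `Pool.Agent.TH915.PW.crit_int` of the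
starting library). Two sets `E`, `F` of vectors over the field with `p` elements with
`|E| |F| > p ^ (d + 1)` have pairs with every nonzero dot product (Hart and Iosevich; proved in
`Pool.Agent.V11113.MP.DotRep`).
-/

namespace Pool.Agent.Results.MP_b0c12c_nt.DotProducts

/-- `R(x) = log x (log log x)^2 log log log log x / (log log log x)^2`. -/
noncomputable def R (x : ℝ) : ℝ :=
  Real.log x * (Real.log (Real.log x)) ^ 2 * Real.log (Real.log (Real.log (Real.log x))) /
    (Real.log (Real.log (Real.log x))) ^ 2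

open scoped Classical in
theorem result (d : ℕ) (ε : ℝ) (h0 : 0 < ε) (h1 : ε ≤ 1) : ∃ κ : ℝ, 0 < κ ∧ ∃ P : ℕ,
    ∀ p : ℕ, P ≤ p → ∀ [Fact p.Prime], ∀ c : Fin d → ZMod p, (∀ i, c i ≠ 0) →
    ∀ w : ZMod p, w ≠ 0 → ∀ M H M' H' : Fin d → ℕ, (∀ i, H i ≤ p) → (∀ i, H' i ≤ p) →
    (∀ i, (p : ℝ) ^ ε ≤ H i) → (∀ i, (p : ℝ) ^ ε ≤ H' i) →
    (p : ℝ) ^ (d + 1 + ε) ≤ (∏ i, (H i : ℝ)) * ∏ i, (H' i : ℝ) →
    (∏ i, (H i : ℝ)) * (∏ i, (H' i : ℝ)) * (p : ℝ) ^ (-(1 + ε)) ≤
      (((Fintype.piFinset fun i => Finset.Ioc (M i) (M i + H i)) ×ˢ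
        (Fintype.piFinset fun i => Finset.Ioc (M' i) (M' i + H' i))).filter (fun z =>
          ∑ i, c i * (z.1 i : ZMod p) * (z.2 i : ZMod p) = w ∧
          ∀ i, (∀ q : ℕ, q.Prime → κ * R p < |(q : ℝ) - z.1 i|) ∧
            (∀ q : ℕ, q.Prime → κ * R p < |(q : ℝ) - z.2 i|))).card :=
  Pool.Agent.V11113.MP.dotrep d ε h0 h1

end Pool.Agent.Results.MP_b0c12c_nt.DotProducts
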