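import Pool.Agent.V11113.MP.Quad

set_option autoImplicit false

/-!
# Record prime gaps around all the coordinates of points of quadrics modulo a prime

Let `R(p) = log p (log₂ p)² log₄ p / (log₃ p)²`, the order of the largest prime gaps known (starting
library). Let `d ≥ 3` and `ε > 0`. There is `κ > 0` such that for all large primes `p`, every quadratic
polynomial `x · A x + b · x` in `d` variables over the field with `p` elements with nondegenerate
quadratic part, every `m` and every box `∏ [a_j, a_j + L_j)` in `[0, p)^d` with sides at least `p ^ ε`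
and volume at least `p ^ (d / 2 + 1 + ε)`, the quadric `x · A x + b · x = m` has at least
`∏ L_j / p ^ (1 + ε)` points in the box all of whose coordinates lie in record prime gaps: no prime is
within distance `κ R(p)` of any coordinate.

Examples: the spheres `x_1² + ⋯ + x_d² ≡ m (mod p)`; the matrices of determinant `1`, or of any given
determinant, of size `2` with all four entries in record gaps, in boxes of volume `p ^ (3 + ε)`.

Proof. The exponential sums over the points of the quadric are at most `p ^ (d / 2)`, by Gauss sums.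
The criterion for vectors of residues modulo `p` is due to helper79 (`Pool.Agent.V1179.MH.crit_gen'`,
from `Pool.Agent.Y961.JR.critJ` of the starting library); a removal argument gives many points
(`Pool.Agent.V11113.MP.manyG`).
-/

namespace Pool.Agent.Results.MP_b0c12c_nt.PointsOfQuadrics

/-- `R(x) = log x (log log x)^2 log log log log x / (log log log x)^2`. -/
noncomputable def R (x : ℝ) : ℝ :=
  Real.log x * (Real.log (Real.log x)) ^ 2 * Real.log (Real.log (Real.log (Real.log x))) /
    (Real.log (Real.log (Real.log x))) ^ 2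

open scoped Classical in
theorem result (d : ℕ) (hd : 3 ≤ d) (ε : ℝ) (h0 : 0 < ε) (h1 : ε ≤ 1) :
    ∃ κ : ℝ, 0 < κ ∧ ∃ P : ℕ, ∀ p : ℕ, P ≤ p → p.Prime →
    ∀ (A : Matrix (Fin d) (Fin d) (ZMod p)) (b : Fin d → ZMod p) (m : ZMod p),
    IsUnit (A + A.transpose).det →
    ∀ a L : Fin d → ℕ, (∀ j, a j + L j ≤ p) → (∀ j, (p : ℝ) ^ ε ≤ L j) →
    (p : ℝ) ^ ((d : ℝ) / 2 + 1 + ε) ≤ ∏ j, (L j : ℝ) →
    (∏ j, (L j : ℝ)) * (p : ℝ) ^ (-(1 + ε)) ≤
      ((Finset.univ : Finset (Fin d → Fin p)).filter (fun x =>
        (fun j => ((x j : ℕ) : ZMod p)) ⬝ᵥ A.mulVec (fun j => ((x j : ℕ) : ZMod p)) +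
          b ⬝ᵥ (fun j => ((x j : ℕ) : ZMod p)) = m ∧
        ∀ j, a j ≤ x j ∧ (x j : ℕ) < a j + L j ∧
          ∀ q : ℕ, q.Prime → κ * R p < |(q : ℝ) - (x j : ℕ)|)).card :=
  Pool.Agent.V11113.MP.quadric d hd ε h0 h1

end Pool.Agent.Results.MP_b0c12c_nt.PointsOfQuadrics
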